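import Pool.Agent.H58.FN.Targets

/-!
MP_6a7a6f_gt, row GE3 (board fnc_modules): all sets of pairwise close unit vectors above the level
of `rad 3` are labelled by the vertices of the pentagonal pyramid.
-/

set_option autoImplicit false

namespace Pool.Agent.H96.FN

open Pool.Agent.H59 Pool.Agent.H48.FR Pool.Agent.H58.FL Pool.Agent.H30.FA Pool.Agent.H58.FM
open Pool.Agent.H58.FN

theorem pf_GE3 (hMN3 : T_MN3) (hR53 : T_R53) (hHEX3 : T_HEX3) (hTTT3 : T_TTT3) (hX73 : T_X73)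
    (hHP3 : T_HP3) (hCLP : T_CLP) : T_GE3 := by
  intro κ hκ E _ _ S hS1 hS2
  have hAd : ∀ x ∈ S, ∀ y ∈ S, Ad3 x y := fun x hx y hy => lt_of_lt_of_le hκ (hS2 x hx y hy)
  have hCl : ∀ (n : ℕ) (p : Fin n → E), (∀ i, p i ∈ S) → Cl3 p := fun n p hp =>
    ⟨fun i => hS1 _ (hp i), fun i j => hAd _ (hp i) _ (hp j)⟩
  have hCl4 : ∀ x ∈ S, ∀ y ∈ S, ∀ z ∈ S, ∀ w ∈ S, Cl3 ![x, y, z, w] := by
    intro x hx y hy z hz w hw
    refine hCl 4 _ fun i => ?_
    fin_cases i
    · exact hx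
    · exact hy
    · exact hz
    · exact hw
  have hCl5 : ∀ x ∈ S, ∀ y ∈ S, ∀ z ∈ S, ∀ w ∈ S, ∀ v ∈ S, Cl3 ![x, y, z, w, v] := by
    intro x hx y hy z hz w hw v hv
    refine hCl 5 _ fun i => ?_
    fin_cases i
    · exact hx
    · exact hy
    · exact hz
    · exact hw
    · exact hv
  have h4 : ∀ x ∈ S, ∀ y ∈ S, ∀ z ∈ S, ∀ w ∈ S,
      (mn x y z w = 0 ∨ mn x y z w = 1 ∨ mn x y z w = -1) ∧ mn y x z w = -mn x y z w ∧
        mn x z y w = -mn x y z w ∧ mn x y w z = -mn x y z w :=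
    fun x hx y hy z hz w hw => (hMN3 E).2.1 ![x, y, z, w] (hCl4 x hx y hy z hz w hw)
  have hcast : ∀ x ∈ S, ∀ y ∈ S, ∀ z ∈ S, ∀ w ∈ S,
      ((round (mn x y z w) : ℤ) : ℝ) = mn x y z w := by
    intro x hx y hy z hz w hw
    rcases (h4 x hx y hy z hz w hw).1 with h | h | h
    · rw [h, round_zero, Int.cast_zero]
    · rw [h, round_one, Int.cast_one]
    · rw [h]
      have h1 : round (-1 : ℝ) = -1 := by
        have h2 := round_intCast (α := ℝ) (-1)
        rw [Int.cast_neg, Int.cast_one] at h2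
        exact h2
      rw [h1, Int.cast_neg, Int.cast_one]
  have hz : ∀ x ∈ S, ∀ y ∈ S, ∀ z ∈ S, ∀ w ∈ S,
      (round (mn x y z w) = 0 ↔ mn x y z w = 0) := by
    intro x hx y hy z hz w hw
    rw [← hcast x hx y hy z hz w hw, Int.cast_eq_zero, round_intCast]
  have hn : ∀ x ∈ S, ∀ y ∈ S, ∀ z ∈ S, ∀ w ∈ S, round (mn x y z w) ≠ 0 → mn x y z w ≠ 0 :=
    fun x hx y hy z hz' w hw h h' => h ((hz x hx y hy z hz' w hw).2 h')
  have hMo : Mo S (fun x y z w => round (mn x y z w)) := by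
    refine ⟨?_, ?_, ?_, ?_, ?_⟩
    · intro x hx y hy z hz w hw
      have h := h4 x hx y hy z hz w hw
      refine ⟨?_, ?_, ?_, ?_⟩
      · have h1 := h.2.1
        rw [← hcast y hy x hx z hz w hw, ← hcast x hx y hy z hz w hw] at h1
        exact_mod_cast h1
      · have h1 := h.2.2.1
        rw [← hcast x hx z hz y hy w hw, ← hcast x hx y hy z hz w hw] at h1
        exact_mod_cast h1
      · have h1 := h.2.2.2
        rw [← hcast x hx y hy w hw z hz, ← hcast x hx y hy z hz w hw] at h1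
        exact_mod_cast h1
      · show |round (mn x y z w)| ≤ 1
        have h1 := h.1
        rw [← hcast x hx y hy z hz w hw] at h1
        rcases h1 with h2 | h2 | h2
        · have h3 : round (mn x y z w) = 0 := by exact_mod_cast h2
          rw [h3]
          decide
        · have h3 : round (mn x y z w) = 1 := by exact_mod_cast h2
          rw [h3]
          decide
        · have h3 : round (mn x y z w) = -1 := by exact_mod_cast h2
          rw [h3]
          decide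
    · intro x hx y hy z hz w hw v hv
      have h1 := (hMN3 E).2.2 x y z w v
      rw [← hcast y hy z hz w hw v hv, ← hcast x hx z hz w hw v hv, ← hcast x hx y hy w hw v hv,
        ← hcast x hx y hy z hz v hv, ← hcast x hx y hy z hz w hw] at h1
      exact_mod_cast h1
    · intro x hx y hy z hz' w hw v hv hne
      have hne' : mn x y z w ≠ 0 := hn x hx y hy z hz' w hw hne
      have h1 := hR53 E ![x, y, z, w, v] (hCl5 x hx y hy z hz' w hw v hv) hne'
      change (mn v y z w ≠ 0 ∧ mn x v z w = 0 ∧ mn x y v w = 0 ∧ mn x y z v = 0) ∨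
        (mn v y z w = 0 ∧ mn x v z w ≠ 0 ∧ mn x y v w = 0 ∧ mn x y z v = 0) ∨
        (mn v y z w = 0 ∧ mn x v z w = 0 ∧ mn x y v w ≠ 0 ∧ mn x y z v = 0) ∨
        (mn v y z w = 0 ∧ mn x v z w = 0 ∧ mn x y v w = 0 ∧ mn x y z v ≠ 0) at h1
      simp only [ne_eq, ← hz v hv y hy z hz' w hw, ← hz x hx v hv z hz' w hw,
        ← hz x hx y hy v hv w hw, ← hz x hx y hy z hz' v hv] at h1
      exact h1
    · intro p hp h1 h2 h3 h4' h5 h6
      exact hHEX3 E p (hCl 6 p hp) (hn _ (hp _) _ (hp _) _ (hp _) _ (hp _) h1)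
        (hn _ (hp _) _ (hp _) _ (hp _) _ (hp _) h2) (hn _ (hp _) _ (hp _) _ (hp _) _ (hp _) h3)
        (hn _ (hp _) _ (hp _) _ (hp _) _ (hp _) h4') (hn _ (hp _) _ (hp _) _ (hp _) _ (hp _) h5)
        (hn _ (hp _) _ (hp _) _ (hp _) _ (hp _) h6)
    · intro p hp h1 h2 h3 h4' h5 h6
      exact hTTT3 E p (hCl 6 p hp) (hn _ (hp _) _ (hp _) _ (hp _) _ (hp _) h1)
        (hn _ (hp _) _ (hp _) _ (hp _) _ (hp _) h2) (hn _ (hp _) _ (hp _) _ (hp _) _ (hp _) h3)
        (hn _ (hp _) _ (hp _) _ (hp _) _ (hp _) h4') (hn _ (hp _) _ (hp _) _ (hp _) _ (hp _) h5)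
        (hn _ (hp _) _ (hp _) _ (hp _) _ (hp _) h6)
  have hEx : Ex S (fun x y z w => round (mn x y z w)) := by
    refine ⟨fun p hp h => hX73 E p (hCl 7 p hp) fun i j k l => ?_,
      fun p hp h => hHP3 E p (hCl 8 p hp) fun i j k l => ?_⟩
    · have h1 : round (mn (p i) (p j) (p k) (p l)) = x7 i j k l := h i j k l
      rw [← hcast _ (hp i) _ (hp j) _ (hp k) _ (hp l), h1]
    · have h1 : round (mn (p i) (p j) (p k) (p l)) = hep i j k l := h i j k l
      rw [← hcast _ (hp i) _ (hp j) _ (hp k) _ (hp l), h1]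
  obtain ⟨c, hc⟩ := hCLP E S (fun x y z w => round (mn x y z w)) hMo hEx
  refine ⟨c, fun x hx y hy z hz' w hw => ?_⟩
  have h1 : round (mn x y z w) = pen (c x) (c y) (c z) (c w) := hc x hx y hy z hz' w hw
  rw [← hcast x hx y hy z hz' w hw, h1]

end Pool.Agent.H96.FN
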